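import Mathlib

set_option autoImplicit false

/-!
Kotzig's theorem: a graph with a unique perfect matching has a matching edge which is a bridge
(cut form). A perfect matching is a fixed-point-free involution `p`; the other edges are a symmetric
relation `F`.
-/

namespace Pool.Agent.H86.KZ

open Function

section
variable {V : Type}

/-- there is a matching (edges of `p` and of `F`) which leaves exactly `z` and `v` uncovered -/
def Near (p : V → V) (F : V → V → Prop) (z v : V) : Prop :=
  ∃ h : V → V, Involutive h ∧ (∀ u, h u = u ↔ u = z ∨ u = v) ∧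
    ∀ u, h u ≠ u → h u = p u ∨ F u (h u)

theorem mix_invol (O : Set V) [DecidablePred (· ∈ O)] (r q : V → V) (hr : Involutive r)
    (hq : Involutive q) (hOr : ∀ u ∈ O, r u ∈ O) (hOq : ∀ u ∈ O, q u ∈ O) :
    Involutive (fun u => if u ∈ O then r u else q u) := by
  intro u
  by_cases hu : u ∈ O
  · simp only [hu, if_true, hOr u hu, hr u]
  · have h1 : q u ∉ O := fun h => hu (by have := hOq _ h; rwa [hq u] at this)
    simp only [hu, if_false, h1, hq u]

/-- match two uncovered vertices `a`, `b` -/
def join [DecidableEq V] (h : V → V) (a b : V) (u : V) : V :=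
  if u = a then b else if u = b then a else h u

theorem join_invol [DecidableEq V] {h : V → V} (hh : Involutive h) {a b : V} (ha : h a = a)
    (hb : h b = b) (hab : a ≠ b) : Involutive (join h a b) := by
  intro u
  unfold join
  by_cases h1 : u = a
  · subst h1; simp [hab.symm]
  · by_cases h2 : u = b
    · subst h2; simp [h1]
    · have h3 : h u ≠ a := fun e => h1 (by rw [← hh u, e, ha])
      have h4 : h u ≠ b := fun e => h2 (by rw [← hh u, e, hb])
      simp [h1, h2, h3, h4, hh u]

theorem join_fix [DecidableEq V] {h : V → V} {a b : V} (hab : a ≠ b) (u : V) :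
    join h a b u = u ↔ h u = u ∧ u ≠ a ∧ u ≠ b := by
  unfold join
  by_cases h1 : u = a
  · subst h1; simp [hab.symm]
  · by_cases h2 : u = b
    · subst h2; simp [h1, hab]
    · simp [h1, h2]

/-- free the matched pair `a`, `h a` -/
def free [DecidableEq V] (h : V → V) (a : V) (u : V) : V :=
  if u = a then u else if u = h a then u else h u

theorem free_invol [DecidableEq V] {h : V → V} (hh : Involutive h) (a : V) :
    Involutive (free h a) := by
  intro u
  unfold free
  by_cases h1 : u = a
  · subst h1; simp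
  · by_cases h2 : u = h a
    · subst h2; simp
    · have h3 : h u ≠ a := fun e => h2 (by rw [← e, hh u])
      have h4 : h u ≠ h a := fun e => h1 (hh.injective e)
      simp [h1, h2, h3, h4, hh u]

theorem free_fix [DecidableEq V] {h : V → V} (a : V) (u : V) :
    free h a u = u ↔ h u = u ∨ u = a ∨ u = h a := by
  unfold free
  by_cases h1 : u = a
  · simp [h1]
  · by_cases h2 : u = h a
    · simp [h2]
    · simp [h1, h2]

/-- **the path of the symmetric difference**: `r` fixes exactly `z`, `d`, `q` fixes exactly `x`, `v`;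
the orbit of `z` contains exactly one of `d`, `x`, `v` -/
theorem orbit [Finite V] (r q : V → V) (hr : Involutive r) (hq : Involutive q) {z d x v : V}
    (hzd : z ≠ d) (hxv : x ≠ v) (hrf : ∀ u, r u = u ↔ u = z ∨ u = d)
    (hqf : ∀ u, q u = u ↔ u = x ∨ u = v) :
    ∃ O : Set V, (∀ u ∈ O, r u ∈ O) ∧ (∀ u ∈ O, q u ∈ O) ∧ z ∈ O ∧
      ((d ∈ O ∧ x ∉ O ∧ v ∉ O) ∨ (d ∉ O ∧ x ∈ O ∧ v ∉ O) ∨ (d ∉ O ∧ x ∉ O ∧ v ∈ O)) := by
  classical
  set R : Equiv.Perm V := hr.toPerm with hR
  set Q : Equiv.Perm V := hq.toPerm with hQ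
  have hRa : ∀ u, R u = r u := fun u => rfl
  have hQa : ∀ u, Q u = q u := fun u => rfl
  have hRR : R * R = 1 := by ext u; simp [hRa, hr u]
  have hQQ : Q * Q = 1 := by ext u; simp [hQa, hq u]
  set g : Equiv.Perm V := R * Q with hg
  have hRi : R⁻¹ = R := by rw [inv_eq_iff_mul_eq_one]; exact hRR
  have hQi : Q⁻¹ = Q := by rw [inv_eq_iff_mul_eq_one]; exact hQQ
  have hsc : SemiconjBy R g g⁻¹ := by
    unfold SemiconjBy
    rw [hg, mul_inv_rev, hRi, hQi, ← mul_assoc, hRR, one_mul, mul_assoc, hRR, mul_one]
  have hrz : r z = z := (hrf z).mpr (Or.inl rfl)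
  have hrg : ∀ n : ℤ, r ((g ^ n) z) = (g ^ (-n)) z := by
    intro n
    have h1 : R * g ^ n = g⁻¹ ^ n * R := (hsc.zpow_right n)
    have h2 := congrArg (fun f : Equiv.Perm V => f z) h1
    simp only [Equiv.Perm.mul_apply, hRa, hrz, inv_zpow', zpow_neg] at h2 ⊢
    exact h2
  have hqg : ∀ n : ℤ, q ((g ^ n) z) = (g ^ (-(n + 1))) z := by
    intro n
    rw [← hrg (n + 1)]
    have h1 : (g ^ (n + 1)) z = R (Q ((g ^ n) z)) := by
      rw [add_comm, zpow_add, zpow_one, Equiv.Perm.mul_apply]
      rfl
    rw [h1, hRa, hQa, hr]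
  have hst : ∀ a : ℤ, (g ^ a) z = z → ∀ b : ℤ, (g ^ (a * b)) z = z := by
    intro a ha b
    rw [zpow_mul]
    exact Equiv.Perm.zpow_apply_eq_self_of_apply_eq_self ha b
  have hadd : ∀ a b : ℤ, (g ^ a) z = z → (g ^ b) z = z → (g ^ (a + b)) z = z := by
    intro a b ha hb
    rw [zpow_add, Equiv.Perm.mul_apply, hb, ha]
  have hrfix : ∀ i : ℤ, r ((g ^ i) z) = (g ^ i) z → (g ^ (2 * i)) z = z := by
    intro i hi
    rw [hrg] at hi
    have : (g ^ (2 * i)) z = (g ^ i) ((g ^ i) z) := by
      rw [← Equiv.Perm.mul_apply, ← zpow_add]; ring_nf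
    rw [this, ← hi, ← Equiv.Perm.mul_apply, ← zpow_add]
    simp
  have hqfix : ∀ i : ℤ, q ((g ^ i) z) = (g ^ i) z → (g ^ (2 * i + 1)) z = z := by
    intro i hi
    rw [hqg] at hi
    have : (g ^ (2 * i + 1)) z = (g ^ (i + 1)) ((g ^ i) z) := by
      rw [← Equiv.Perm.mul_apply, ← zpow_add]; ring_nf
    rw [this, ← hi, ← Equiv.Perm.mul_apply, ← zpow_add]
    simp
  set O : Set V := {u | ∃ n : ℤ, u = (g ^ n) z} with hO
  have hex : d ∈ O ∨ x ∈ O ∨ v ∈ O := by
    have hP : ∃ n : ℕ, 0 < n ∧ (g ^ n) z = z :=
      ⟨orderOf g, orderOf_pos g, by rw [pow_orderOf_eq_one]; rfl⟩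
    obtain ⟨hL0, hL1⟩ := Nat.find_spec hP
    have hmin := fun m hm => Nat.find_min hP (m := m) hm
    set L := Nat.find hP with hL
    rcases Nat.even_or_odd' L with ⟨k, hk | hk⟩
    · left
      have hk0 : 0 < k := by omega
      have h1 : r ((g ^ (k : ℤ)) z) = (g ^ (k : ℤ)) z := by
        rw [hrg]
        have h2 : (g ^ (2 * (k : ℤ))) z = z := by
          rw [hk] at hL1
          exact_mod_cast hL1
        calc (g ^ (-(k : ℤ))) z = (g ^ (-(k : ℤ))) ((g ^ (2 * (k : ℤ))) z) := by rw [h2]
          _ = (g ^ (k : ℤ)) z := by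
            rw [← Equiv.Perm.mul_apply, ← zpow_add]; ring_nf
      rcases (hrf _).mp h1 with h2 | h2
      · exfalso
        refine hmin k (by omega) ⟨hk0, ?_⟩
        exact_mod_cast h2
      · exact ⟨k, h2.symm⟩
    · right
      have h1 : q ((g ^ (k : ℤ)) z) = (g ^ (k : ℤ)) z := by
        rw [hqg]
        have h2 : (g ^ (2 * (k : ℤ) + 1)) z = z := by
          rw [hk] at hL1
          exact_mod_cast hL1
        calc (g ^ (-((k : ℤ) + 1))) z = (g ^ (-((k : ℤ) + 1))) ((g ^ (2 * (k : ℤ) + 1)) z) := by rw [h2]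
          _ = (g ^ (k : ℤ)) z := by
            rw [← Equiv.Perm.mul_apply, ← zpow_add]; ring_nf
      rcases (hqf _).mp h1 with h2 | h2
      · left; exact ⟨k, h2.symm⟩
      · right; exact ⟨k, h2.symm⟩
  -- `d` and a fixed point of `q` are not both in the orbit
  have hdq : d ∈ O → ∀ w, q w = w → w ∉ O := by
    rintro ⟨i, hi⟩ w hw ⟨j, hj⟩
    have h1 := hrfix i (by rw [← hi]; exact (hrf d).mpr (Or.inr rfl))
    have h2 := hqfix j (by rw [← hj]; exact hw)
    have h3 := hadd _ _ (hst _ h2 i) (hst _ h1 (-j))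
    have h4 : (2 * j + 1) * i + 2 * i * (-j) = i := by ring
    rw [h4] at h3
    exact hzd (by rw [hi, h3])
  have hxvO : x ∈ O → v ∉ O := by
    rintro ⟨i, hi⟩ ⟨j, hj⟩
    have h1 := hqfix i (by rw [← hi]; exact (hqf x).mpr (Or.inl rfl))
    have h2 := hqfix j (by rw [← hj]; exact (hqf v).mpr (Or.inr rfl))
    -- `i - j` is a period
    have h3 : (g ^ (i - j)) z = z := by
      have e1 := hadd _ _ (hst _ h1 (1 - (i - j) - (i - j) + (i - j))) (hst _ h2 0)
      have a1 := hadd _ _ h1 (hst _ h2 (-1))
      -- `2 (i - j)` is a period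
      have a2 : (2 * i + 1) + (2 * j + 1) * (-1) = 2 * (i - j) := by ring
      rw [a2] at a1
      have a3 := hadd _ _ (hst _ h1 (i - j)) (hst _ a1 (-i))
      have a4 : (2 * i + 1) * (i - j) + 2 * (i - j) * (-i) = i - j := by ring
      rw [a4] at a3
      exact a3
    apply hxv
    rw [hi, hj]
    calc (g ^ i) z = (g ^ j) ((g ^ (i - j)) z) := by
          rw [← Equiv.Perm.mul_apply, ← zpow_add]; ring_nf
      _ = (g ^ j) z := by rw [h3]
  refine ⟨O, ?_, ?_, ⟨0, by simp⟩, ?_⟩
  · rintro u ⟨n, rfl⟩
    exact ⟨-n, hrg n⟩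
  · rintro u ⟨n, rfl⟩
    exact ⟨-(n + 1), hqg n⟩
  · have hqx : q x = x := (hqf x).mpr (Or.inl rfl)
    have hqv : q v = v := (hqf v).mpr (Or.inr rfl)
    rcases hex with h | h | h
    · exact Or.inl ⟨h, hdq h x hqx, hdq h v hqv⟩
    · exact Or.inr (Or.inl ⟨fun hd => hdq hd x hqx h, h, hxvO h⟩)
    · exact Or.inr (Or.inr ⟨fun hd => hdq hd v hqv h, fun hx => hxvO hx h, h⟩)

end

section
variable {V : Type} [Finite V] {p : V → V} {F : V → V → Prop}

/-- **Kotzig's theorem** (cut form): `p` is a perfect matching, `F` the other edges (none of them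
parallel to an edge of `p`), and `p` is the only perfect matching. Then there is a vertex `z` and a set
`A` with `p z ∈ A`, `z ∉ A` such that `p z, z` is the only edge between `A` and its complement. -/
theorem kotzig [Nonempty V] (hp : Involutive p) (hpf : ∀ u, p u ≠ u) (hF : ∀ u w, F u w → F w u)
    (hpar : ∀ u, ¬ F u (p u))
    (huniq : ∀ h : V → V, Involutive h → (∀ u, h u ≠ u) → (∀ u, h u = p u ∨ F u (h u)) →
      ∀ u, h u = p u) :
    ∃ (z : V) (A : Set V), z ∉ A ∧ p z ∈ A ∧ (∀ u ∈ A, u ≠ p z → p u ∈ A) ∧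
      ∀ u ∈ A, ∀ w, w ∉ A → ¬ F u w := by
  classical
  -- a near perfect matching of two vertices joined by an edge of `F` is impossible
  have h1 : ∀ d x, d ≠ x → F d x → ¬ Near p F d x := by
    rintro d x hdx hF1 ⟨h, hh, hf, hok⟩
    have hd : h d = d := (hf d).mpr (Or.inl rfl)
    have hx : h x = x := (hf x).mpr (Or.inr rfl)
    have hu := huniq (join h d x) (join_invol hh hd hx hdx) (by
      intro u hu
      rw [join_fix hdx] at hu
      rcases (hf u).mp hu.1 with h2 | h2
      · exact hu.2.1 h2
      · exact hu.2.2 h2) (by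
      intro u
      unfold join
      by_cases h2 : u = d
      · subst h2; simp only [if_true]; exact Or.inr hF1
      · by_cases h3 : u = x
        · subst h3; simp only [if_neg h2, if_true]; exact Or.inr (hF _ _ hF1)
        · simp only [if_neg h2, if_neg h3]
          exact hok u (fun e => by
            rcases (hf u).mp e with h4 | h4
            · exact h2 h4
            · exact h3 h4)) d
    unfold join at hu
    simp only [if_true] at hu
    rw [hu] at hF1
    exact hpar d hF1
  have hsymm : ∀ z v, Near p F z v → Near p F v z := by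
    rintro z v ⟨h, hh, hf, hok⟩
    exact ⟨h, hh, fun u => by rw [hf u, or_comm], hok⟩
  have hM : ∀ z, Near p F z (p z) := by
    intro z
    refine ⟨free p z, free_invol hp z, fun u => ?_, fun u hu => ?_⟩
    · rw [free_fix]
      constructor
      · rintro (h | h)
        · exact absurd h (hpf u)
        · exact h
      · exact Or.inr
    · left
      have hu' := hu
      rw [Ne, free_fix] at hu'
      push Not at hu'
      unfold free
      rw [if_neg hu'.2.1, if_neg hu'.2.2]
  -- choose `z` with the fewest vertices `v` with `Near z v`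
  set N : V → Set V := fun z => {v | v ≠ z ∧ Near p F z v} with hN
  obtain ⟨z, hz⟩ : ∃ z, ∀ x, (N z).ncard ≤ (N x).ncard := by
    have := Fintype.ofFinite V
    obtain ⟨z, -, hz⟩ := Finset.exists_min_image (Finset.univ : Finset V) (fun x => (N x).ncard)
      Finset.univ_nonempty
    exact ⟨z, fun x => hz x (Finset.mem_univ x)⟩
  have hclosed : ∀ d ∈ N z, ∀ x, x ∉ N z → ¬ F d x := by
    rintro d ⟨hdz, hd⟩ x hx hFdx
    by_cases hxz : x = z
    · subst hxz
      exact h1 d x hdz hFdx (hsymm _ _ hd)
    have hdx : d ≠ x := by rintro rfl; exact hx ⟨hdz, hd⟩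
    -- `N x` is a proper subset of `N z`
    have hsub : N x ⊂ N z := by
      refine (Set.ssubset_iff_of_subset ?_).mpr ⟨d, ⟨hdz, hd⟩, fun hdN => ?_⟩
      · rintro v ⟨hvx, hv⟩
        have hvz : v ≠ z := by
          rintro rfl
          exact hx ⟨hxz, hsymm _ _ hv⟩
        have hvd : v ≠ d := by
          rintro rfl
          exact h1 v x hdx hFdx (hsymm _ _ hv)
        refine ⟨hvz, ?_⟩
        obtain ⟨r, hr, hrf, hrok⟩ := hd
        obtain ⟨q, hq, hqf, hqok⟩ := hv
        obtain ⟨O, hOr, hOq, hzO, hcase⟩ := orbit r q hr hq (Ne.symm hdz) (Ne.symm hvx) hrf hqf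
        set h : V → V := fun u => if u ∈ O then r u else q u with hh
        have hhi : Involutive h := mix_invol O r q hr hq hOr hOq
        have hhok : ∀ u, h u ≠ u → h u = p u ∨ F u (h u) := by
          intro u hu
          by_cases huO : u ∈ O
          · simp only [hh, huO, if_true] at hu ⊢
            exact hrok u hu
          · simp only [hh, huO, if_false] at hu ⊢
            exact hqok u hu
        have hhf : ∀ u, h u = u ↔ (u ∈ O ∧ (u = z ∨ u = d)) ∨ (u ∉ O ∧ (u = x ∨ u = v)) := by
          intro u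
          by_cases huO : u ∈ O
          · simp only [hh, huO, if_true, hrf u]
            tauto
          · simp only [hh, huO, if_false, hqf u]
            tauto
        rcases hcase with ⟨hdO, hxO, hvO⟩ | ⟨hdO, hxO, hvO⟩ | ⟨hdO, hxO, hvO⟩
        · -- join `d` and `x`
          have hhd : h d = d := (hhf d).mpr (Or.inl ⟨hdO, Or.inr rfl⟩)
          have hhx : h x = x := (hhf x).mpr (Or.inr ⟨hxO, Or.inl rfl⟩)
          refine ⟨join h d x, join_invol hhi hhd hhx hdx, fun u => ?_, fun u hu => ?_⟩
          · rw [join_fix hdx, hhf u]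
            constructor
            · rintro ⟨(⟨_, h2 | h2⟩ | ⟨_, h2 | h2⟩), h3, h4⟩
              · exact Or.inl h2
              · exact absurd h2 h3
              · exact absurd h2 h4
              · exact Or.inr h2
            · rintro (h2 | h2)
              · subst h2
                exact ⟨Or.inl ⟨hzO, Or.inl rfl⟩, Ne.symm hdz, Ne.symm hxz⟩
              · subst h2
                exact ⟨Or.inr ⟨hvO, Or.inr rfl⟩, hvd, hvx⟩
          · unfold join at hu ⊢
            by_cases h2 : u = d
            · subst h2; simp only [if_true]; exact Or.inr hFdx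
            · by_cases h3 : u = x
              · subst h3; simp only [if_neg h2, if_true]; exact Or.inr (hF _ _ hFdx)
              · simp only [if_neg h2, if_neg h3] at hu ⊢
                exact hhok u hu
        · refine ⟨h, hhi, fun u => ?_, hhok⟩
          rw [hhf u]
          constructor
          · rintro (⟨h2, h3 | h3⟩ | ⟨h2, h3 | h3⟩)
            · exact Or.inl h3
            · subst h3; exact absurd h2 hdO
            · subst h3; exact absurd hxO h2
            · exact Or.inr h3
          · rintro (h2 | h2)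
            · subst h2; exact Or.inl ⟨hzO, Or.inl rfl⟩
            · subst h2; exact Or.inr ⟨hvO, Or.inr rfl⟩
        · exfalso
          apply hx
          refine ⟨hxz, h, hhi, fun u => ?_, hhok⟩
          rw [hhf u]
          constructor
          · rintro (⟨h2, h3 | h3⟩ | ⟨h2, h3 | h3⟩)
            · exact Or.inl h3
            · subst h3; exact absurd h2 hdO
            · exact Or.inr h3
            · subst h3; exact absurd hvO h2
          · rintro (h2 | h2)
            · subst h2; exact Or.inl ⟨hzO, Or.inl rfl⟩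
            · subst h2; exact Or.inr ⟨hxO, Or.inl rfl⟩
      · exact h1 d x hdx hFdx (hsymm _ _ hdN.2)
    have := Set.ncard_lt_ncard hsub (Set.toFinite _)
    exact absurd (hz x) (by omega)
  refine ⟨z, N z, fun h => h.1 rfl, ⟨hpf z, hM z⟩, ?_, hclosed⟩
  rintro v ⟨hvz, hv⟩ hvp
  by_contra hpv
  have hwz : p v ≠ z := fun e => hvp (by rw [← e, hp v])
  obtain ⟨h, hh, hf, hok⟩ := hv
  have hhv : h v = v := (hf v).mpr (Or.inr rfl)
  have hw : h (p v) ≠ p v := by
    intro e
    rcases (hf _).mp e with h2 | h2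
    · exact hwz h2
    · exact hpf v h2
  set w' := h (p v) with hw'
  have hFw : F (p v) w' := by
    rcases hok _ hw with h2 | h2
    · exfalso
      rw [hp v] at h2
      have h3 : h w' = p v := hh (p v)
      have h4 : w' = v := h2
      rw [h4, hhv] at h3
      exact hpf v h3.symm
    · exact h2
  have hw'z : w' ≠ z := by
    intro e
    have h2 : h z = z := (hf z).mpr (Or.inl rfl)
    have h3 : h w' = p v := by rw [hw', hh]
    rw [e, h2] at h3
    exact hwz h3.symm
  have hw'v : w' ≠ v := by
    intro e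
    have h3 : h w' = p v := by rw [hw', hh]
    rw [e, hhv] at h3
    exact hpf v h3.symm
  -- free the pair `p v, w'` and join `v` and `p v`
  have hfr := free_invol hh (p v)
  have hfv : free h (p v) v = v := (free_fix _ _).mpr (Or.inl hhv)
  have hfp : free h (p v) (p v) = p v := (free_fix _ _).mpr (Or.inr (Or.inl rfl))
  have hne : v ≠ p v := (hpf v).symm
  have hw'A : w' ∈ N z := by
    refine ⟨hw'z, join (free h (p v)) v (p v), join_invol hfr hfv hfp hne, fun u => ?_,
      fun u hu => ?_⟩
    · rw [join_fix hne, free_fix, hf u]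
      constructor
      · rintro ⟨(h2 | h2) | h2 | h2, h3, h4⟩
        · exact Or.inl h2
        · exact absurd h2 h3
        · exact absurd h2 h4
        · exact Or.inr h2
      · rintro (h2 | h2)
        · subst h2
          exact ⟨Or.inl (Or.inl rfl), Ne.symm hvz, fun e => hwz e.symm⟩
        · subst h2
          exact ⟨Or.inr (Or.inr rfl), hw'v, hw⟩
    · unfold join at hu ⊢
      by_cases h2 : u = v
      · subst h2; simp
      · by_cases h3 : u = p v
        · subst h3; simp [hne.symm, hp v]
        · simp only [if_neg h2, if_neg h3] at hu ⊢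
          unfold free at hu ⊢
          by_cases h4 : u = h (p v)
          · rw [if_neg h3, if_pos h4] at hu
            exact absurd rfl hu
          · rw [if_neg h3, if_neg h4] at hu ⊢
            exact hok u hu
  exact hclosed w' hw'A (p v) hpv (hF _ _ hFw)

end

end Pool.Agent.H86.KZ
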